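import Pool.Agent.Helper34.CP.Goals

/-!
# Packet KILL of the project CP (MP_d97caa_an)
-/

open scoped ComplexOrder

namespace Pool.Agent.Helper16.CP

open Pool.Agent.Helper34.CP

section

variable {B : Type} [NonUnitalCStarAlgebra B]

theorem LL_le {E : ℕ → Submodule ℂ B} (hE : Sys E) {e : B} (he : e ∈ E 0) (l : ℕ) :
    LL e (E l) ≤ E l := by
  refine Submodule.topologicalClosure_minimal _ ?_ (hE.closed l)
  rintro _ ⟨y, hy, rfl⟩
  have := hE.mul 0 l e he y hy
  rw [Nat.zero_add] at this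
  simpa using this

theorem LL_closure {V : Submodule ℂ B} {g a e : B} (he : e = g * a) {z : B} (hz : z ∈ LL e V) :
    z ∈ closure {z : B | ∃ w, z = g * w} := by
  have h1 : (LL e V : Set B) = closure (V.map (LinearMap.mulLeft ℂ e) : Set B) := by
    rw [LL, Submodule.topologicalClosure_coe]
  have h2 : z ∈ (LL e V : Set B) := hz
  rw [h1] at h2
  refine closure_mono ?_ h2
  rintro _ ⟨y, -, rfl⟩
  refine ⟨a * y, ?_⟩
  simp [he]

end

theorem kill (hBAS : S_BAS) (hCUT : S_CUT) (hABEL : S_ABEL) (hFN : S_FN) (hCOMM : S_COMM) :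
    S_KILL := by
  intro B _ E hE hTI hNA hNR j c x hj hx hc ε hε hε1
  have hB := hBAS B E hE
  have hcl : IsClosed (E 0 : Set B) := hE.closed 0
  have hmul : ∀ x ∈ E 0, ∀ y ∈ E 0, x * y ∈ E 0 := fun x hx y hy => by
    simpa using hE.mul 0 0 x hx y hy
  by_cases hcc : star c * c = 0
  · refine ⟨0, 0, (E 0).zero_mem, ?_, ?_, ?_⟩
    · simp
    · simp
    · simp [hcc]
  obtain ⟨g, hgE, hgs, hg0, hgest⟩ := hCUT B (E 0) hcl hmul hE.star0 c hc hcc ε hε hε1
  obtain ⟨c', hc'E, hes, he0, heA⟩ := hABEL B (E 0) hcl hmul hE.star0 hTI g hgE hg0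
  set e := g * c' * star g with he
  have heE : e ∈ E 0 := hmul _ (hmul _ hgE _ hc'E) _ (hE.star0 g hgE)
  have heg : e = g * (c' * star g) := by rw [he, mul_assoc]
  obtain ⟨f, hf⟩ := hFN B (E 0) hcl hmul hE.star0 e heE hes he0
  by_cases H : ∀ l, ∀ z ∈ LL e (E l), z ≠ 0 → star z * x * z ≠ 0
  · exfalso
    have hdat : Dat E e f j x :=
      { eA := heE
        esa := hes
        sa := fun i => (hf i).1
        fac := fun i => (hf i).2.2.2
        step := fun i => (hf i).2.2.1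
        ne := fun i => (hf i).2.1
        ab := heA
        xm := hx
        pos := hj
        uu := H }
    have hab := hCOMM B E hE hNR e f j x hdat
    obtain ⟨v, hv, hfv⟩ := (hf 0).2.2.2
    have hf0 : f 0 ∈ E 0 := by
      rw [hfv]
      exact hmul _ (hmul _ heE _ hv) _ heE
    have hfB : f 0 ∈ BB E 0 := hB.ffBB 0 (by rw [hB.ffZero]; exact hf0)
    exact (hf 0).2.1 (hNA (f 0) hfB (hf 0).1 hab)
  · push Not at H
    obtain ⟨l, z, hz, hz0, hzx⟩ := H
    have hn : ‖z‖ ≠ 0 := norm_ne_zero_iff.2 hz0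
    set r : ℂ := ((‖z‖⁻¹ : ℝ) : ℂ) with hr
    have hz' : r • z ∈ LL e (E l) := (LL e (E l)).smul_mem r hz
    have hnorm : ‖r • z‖ = 1 := by
      rw [norm_smul, hr, Complex.norm_real, norm_inv, norm_norm, inv_mul_cancel₀ hn]
    refine ⟨l, r • z, LL_le hE heE l hz', hnorm.le, ?_, ?_⟩
    · rw [star_smul, smul_mul_assoc, smul_mul_assoc, mul_smul_comm, hzx]
      simp
    · have := hgest (r • z) (LL_closure heg hz')
      rwa [hnorm, one_pow, mul_one] at this

end Pool.Agent.Helper16.CP
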