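import Pool.Agent.Helper34.CP.Goals

/-!
# Packet MK of the project CP (MP_d97caa_an)
-/

open scoped ComplexOrder

namespace Pool.Agent.Helper16.CP

open Pool.Agent.Helper34.CP

theorem mk (hBAS : S_BAS) (hKILL : S_KILL) : S_MK := by
  intro B _ E hE hTI hNA hNR
  have hB := hBAS B E hE
  have main : ∀ n : ℕ, ∀ L : List B, L.length = n →
      (∀ x ∈ L, ∃ j, 1 ≤ j ∧ (x ∈ E j ∨ star x ∈ E j)) → ∀ c : B, star c * c ∈ E 0 →
      ∀ ε : ℝ, 0 < ε → ε < 1 → ∃ l, ∃ z ∈ E l, ‖z‖ ≤ 1 ∧ (∀ x ∈ L, star z * x * z = 0) ∧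
        (1 - ε) * ‖star c * c‖ ≤ ‖star z * (star c * c) * z‖ := by
    intro n
    induction n with
    | zero =>
      intro L hlen _ c hc ε hε hε1
      have hnil : L = [] := List.length_eq_zero_iff.1 hlen
      subst hnil
      obtain ⟨l, z, hz, hn, -, hest⟩ := hKILL B E hE hTI hNA hNR 1 c 0 le_rfl (E 1).zero_mem
        hc ε hε hε1
      exact ⟨l, z, hz, hn, by simp, hest⟩
    | succ n ih =>
      intro L hlen hL c hc ε hε hε1
      match L, hlen, hL with
      | x :: L, hlen, hL =>
        -- kill the first element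
        have h1 : ∃ l, ∃ z ∈ E l, ‖z‖ ≤ 1 ∧ star z * x * z = 0 ∧
            (1 - ε / 2) * ‖star c * c‖ ≤ ‖star z * (star c * c) * z‖ := by
          obtain ⟨j, hj, hx | hx⟩ := hL x List.mem_cons_self
          · exact hKILL B E hE hTI hNA hNR j c x hj hx hc (ε / 2) (by linarith) (by linarith)
          · obtain ⟨l, z, hz, hn, h0, hest⟩ := hKILL B E hE hTI hNA hNR j c (star x) hj hx hc
              (ε / 2) (by linarith) (by linarith)
            refine ⟨l, z, hz, hn, ?_, hest⟩
            have h2 := congrArg star h0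
            simpa [mul_assoc] using h2
        obtain ⟨l₁, z₁, hz₁, hn₁, hx₁, hest₁⟩ := h1
        have hc' : star (c * z₁) * (c * z₁) = star z₁ * (star c * c) * z₁ := by
          rw [star_mul]
          simp only [mul_assoc]
        have hc'E : star (c * z₁) * (c * z₁) ∈ E 0 := by
          rw [hc']
          exact hB.sand l₁ 0 _ hc z₁ hz₁ z₁ hz₁
        have hL' : ∀ y ∈ L.map (fun y => star z₁ * y * z₁),
            ∃ j, 1 ≤ j ∧ (y ∈ E j ∨ star y ∈ E j) := by
          intro y hy
          obtain ⟨y', hy', rfl⟩ := List.mem_map.1 hy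
          obtain ⟨j, hj, h | h⟩ := hL y' (List.mem_cons_of_mem _ hy')
          · exact ⟨j, hj, Or.inl (hB.sand l₁ j y' h z₁ hz₁ z₁ hz₁)⟩
          · refine ⟨j, hj, Or.inr ?_⟩
            have h2 := hB.sand l₁ j (star y') h z₁ hz₁ z₁ hz₁
            have h3 : star (star z₁ * y' * z₁) = star z₁ * star y' * z₁ := by
              simp [mul_assoc]
            rw [h3]
            exact h2
        obtain ⟨l₂, z₂, hz₂, hn₂, hx₂, hest₂⟩ := ih (L.map (fun y => star z₁ * y * z₁))
          (by simpa using hlen) hL' (c * z₁) hc'E (ε / 2) (by linarith) (by linarith)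
        have hs : ∀ y : B, star (z₁ * z₂) * y * (z₁ * z₂) =
            star z₂ * (star z₁ * y * z₁) * z₂ := by
          intro y
          rw [star_mul]
          simp only [mul_assoc]
        refine ⟨l₁ + l₂, z₁ * z₂, hE.mul l₁ l₂ z₁ hz₁ z₂ hz₂, ?_, ?_, ?_⟩
        · calc ‖z₁ * z₂‖ ≤ ‖z₁‖ * ‖z₂‖ := norm_mul_le _ _
            _ ≤ 1 * 1 := mul_le_mul hn₁ hn₂ (norm_nonneg _) zero_le_one
            _ = 1 := one_mul 1
        · intro y hy
          rw [hs]
          rcases List.mem_cons.1 hy with rfl | hy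
          · rw [hx₁, mul_zero, zero_mul]
          · exact hx₂ _ (List.mem_map.2 ⟨y, hy, rfl⟩)
        · rw [hs]
          rw [hc'] at hest₂
          have hN : 0 ≤ ‖star c * c‖ := norm_nonneg _
          have e1 : (1 - ε) * ‖star c * c‖ ≤ (1 - ε / 2) * ((1 - ε / 2) * ‖star c * c‖) := by
            nlinarith [mul_nonneg (sq_nonneg ε) hN]
          exact e1.trans ((mul_le_mul_of_nonneg_left hest₁ (by linarith)).trans hest₂)
  intro L hL c hc ε hε hε1
  exact main L.length L rfl hL c hc ε hε hε1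

end Pool.Agent.Helper16.CP
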